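import Mathlib
import Pool.Agent.H39.Peel

set_option autoImplicit false

namespace Pool.Agent.Results.MP_773080_lc.LinNotPrincipal

/-- A deterministic generalized sequential machine with accepting states. -/
structure AGSM (X Y : Type) where
  Q : Type
  finite : Finite Q
  next : Q → X → Q
  out : Q → X → List Y
  start : Q
  acc : Set Q

/-- The state reached from `q` after reading a word. -/
def AGSM.run {X Y : Type} (τ : AGSM X Y) (q : τ.Q) (u : List X) : τ.Q := u.foldl τ.next q

/-- The output produced from state `q` while reading a word. -/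
def AGSM.output {X Y : Type} (τ : AGSM X Y) : τ.Q → List X → List Y
  | _, [] => []
  | q, x :: u => τ.out q x ++ τ.output (τ.next q x) u

/-- The inverse image of a language under the mapping of the machine. -/
def AGSM.preimage {X Y : Type} (τ : AGSM X Y) (L : Language Y) : Language X :=
  {u | τ.run τ.start u ∈ τ.acc ∧ τ.output τ.start u ∈ L}

/-- Membership in the smallest family that contains `L0` and is closed under inverse a-gsm
mappings. -/
inductive InG {Y : Type} (L0 : Language Y) : (X : Type) → Language X → Prop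
  | base : InG L0 Y L0
  | inv {X Z : Type} (hX : Finite X) (τ : AGSM X Z) {L : Language Z} :
      InG L0 Z L → InG L0 X (τ.preimage L)

/-- Nonterminal symbols. -/
def isNonterminal {T N : Type} : Symbol T N → Bool
  | .nonterminal _ => true
  | .terminal _ => false

/-- Linear languages. -/
def IsLinear {X : Type} (L : Language X) : Prop :=
  ∃ g : ContextFreeGrammar X,
    (∀ r ∈ g.rules, r.output.countP isNonterminal ≤ 1) ∧ g.language = L

open Pool.Agent.H39.CF

section
variable {X Y Z : Type}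

theorem run_append (τ : AGSM X Y) (q : τ.Q) (u v : List X) :
    τ.run q (u ++ v) = τ.run (τ.run q u) v := List.foldl_append

theorem output_append (τ : AGSM X Y) (q : τ.Q) (u v : List X) :
    τ.output q (u ++ v) = τ.output q u ++ τ.output (τ.run q u) v := by
  induction u generalizing q with
  | nil => rfl
  | cons x u ih => simp [AGSM.output, ih, AGSM.run]

theorem loop_pw (τ : AGSM X Y) {q : τ.Q} {e : List X} (h : τ.run q e = q) (k : ℕ) :
    τ.run q (pw e k) = q ∧ τ.output q (pw e k) = pw (τ.output q e) k := by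
  induction k with
  | zero => exact ⟨rfl, rfl⟩
  | succ k ih => rw [pw_succ, run_append, output_append, h, ih.1, ih.2, pw_succ]; exact ⟨rfl, rfl⟩

/-- Composition of machines. -/
def comp (τ : AGSM X Z) (σ : AGSM Z Y) : AGSM X Y where
  Q := τ.Q × σ.Q
  finite := by have := τ.finite; have := σ.finite; infer_instance
  next := fun q x => (τ.next q.1 x, σ.run q.2 (τ.out q.1 x))
  out := fun q x => σ.output q.2 (τ.out q.1 x)
  start := (τ.start, σ.start)
  acc := τ.acc ×ˢ σ.acc

theorem comp_spec (τ : AGSM X Z) (σ : AGSM Z Y) (u : List X) (p : τ.Q) (q : σ.Q) :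
    (comp τ σ).run (p, q) u = (τ.run p u, σ.run q (τ.output p u)) ∧
      (comp τ σ).output (p, q) u = σ.output q (τ.output p u) := by
  induction u generalizing p q with
  | nil => exact ⟨rfl, rfl⟩
  | cons x u ih =>
    obtain ⟨h1, h2⟩ := ih (τ.next p x) (σ.run q (τ.out p x))
    simp only [AGSM.output, run_append, output_append]
    exact ⟨h1, congrArg _ h2⟩

theorem InG.single {L0 : Language Y} {L : Language X} (h : InG L0 X L) :
    ∃ τ : AGSM X Y, L = τ.preimage L0 := by
  induction h with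
  | base =>
    let τ : AGSM Y Y := ⟨Unit, inferInstance, fun _ _ => (), fun _ x => [x], (), Set.univ⟩
    have : ∀ u, τ.output () u = u := fun u => by
      induction u with
      | nil => rfl
      | cons x u ih => exact congrArg (List.cons x) ih
    refine ⟨τ, Set.ext fun u => ⟨fun h => ⟨trivial, ?_⟩, fun h => ?_⟩⟩
    · exact (this u).symm ▸ h
    · exact this u ▸ h.2
  | inv _ τ _ ih =>
    obtain ⟨σ, rfl⟩ := ih
    refine ⟨comp τ σ, Set.ext fun u => ?_⟩
    obtain ⟨h1, h2⟩ := comp_spec τ σ u τ.start σ.start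
    change _ ↔ (comp τ σ).run (τ.start, σ.start) u ∈ τ.acc ×ˢ σ.acc ∧
      (comp τ σ).output (τ.start, σ.start) u ∈ L0
    rw [h1, h2]
    exact and_assoc.symm

theorem exists_idem (τ : AGSM X Y) (w : List X) :
    ∃ p, ∀ q, τ.run (τ.run q (pw w (p + 1))) (pw w (p + 1)) = τ.run q (pw w (p + 1)) := by
  have := τ.finite
  obtain ⟨m, hm⟩ := pig (τ.Q → τ.Q)
  obtain ⟨i, j, h1, -, h2⟩ := hm fun n q => τ.run q (pw w n)
  obtain ⟨d, rfl⟩ := Nat.exists_eq_add_of_lt h1
  have h3 : ∀ k n q, τ.run q (pw w (i + n + k * (d + 1))) = τ.run q (pw w (i + n)) := by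
    intro k n q
    induction k with
    | zero => simp
    | succ k ih =>
      rw [show i + n + (k + 1) * (d + 1) = i + d + 1 + (n + k * (d + 1)) by ring, pw_add,
        run_append, ← congrFun h2 q, ← run_append, ← pw_add, ← add_assoc, ih]
  refine ⟨i + (i + 1) * d, fun q => ?_⟩
  rw [← run_append, ← pw_add]
  have h4 := h3 (i + 1) ((i + 1) * d + 1) q
  rw [← add_assoc] at h4
  rw [← h4]
  congr 2
  ring

theorem exists_loops (τ : AGSM X Y) (a : ℕ → X) :
    ∃ e : ℕ → List X, (∀ j, ∀ x ∈ e j, ∃ i ≤ j, x = a i) ∧ (∀ j, a j ∈ e j) ∧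
      ∀ i j, i ≤ j → ∀ q, τ.run (τ.run q (e j)) (e i) = τ.run q (e j) := by
  choose p hp using exists_idem τ
  let e : ℕ → List X := fun n =>
    n.rec (pw [a 0] (p [a 0] + 1)) fun j w => pw (a (j + 1) :: w) (p (a (j + 1) :: w) + 1)
  have e0 : e 0 = pw [a 0] (p [a 0] + 1) := rfl
  have e1 : ∀ j, e (j + 1) = pw (a (j + 1) :: e j) (p (a (j + 1) :: e j) + 1) := fun _ => rfl
  refine ⟨e, fun j => ?_, fun j => ?_, fun i j hij => ?_⟩
  · induction j with
    | zero => intro x hx; exact ⟨0, le_rfl, by simpa using mem_pw hx⟩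
    | succ j ih =>
      intro x hx
      rcases List.mem_cons.1 (mem_pw hx) with rfl | hx
      · exact ⟨_, le_rfl, rfl⟩
      · obtain ⟨i, h1, h2⟩ := ih x hx
        exact ⟨i, by omega, h2⟩
  · rcases j with _ | j
    · simp [e0, pw_succ]
    · simp [e1, pw_succ]
  · induction j, hij using Nat.le_induction with
    | base =>
      rcases i with _ | i
      · exact hp _
      · exact hp _
    | succ j _ ih =>
      intro q
      have : ∃ z, e (j + 1) = z ++ e j :=
        ⟨pw (a (j + 1) :: e j) (p (a (j + 1) :: e j)) ++ [a (j + 1)], by rw [e1, pw_succ']; simp⟩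
      obtain ⟨z, hz⟩ := this
      rw [hz, run_append, ih]

theorem count_sym {N : Type} (β : List (N ⊕ X)) :
    (β.map symE.symm).countP isNonterminal = β.countP Sum.isLeft := by
  rw [List.countP_map]
  congr 1
  funext x
  rcases x with x | x <;> rfl

theorem IsLinear.peel {L : Language Y} (h : IsLinear L) :
    ∃ (C : Type) (_ : Finite C) (K : C → Set (List Y)) (c0 : C), Peel K ∧ K c0 = L := by
  obtain ⟨g, h1, rfl⟩ := h
  let P : g.NT → List (g.NT ⊕ Y) → Prop := fun A β => ⟨A, β.map symE.symm⟩ ∈ g.rules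
  obtain ⟨C, _, K, c0, h2, h3⟩ := exists_peel (P := P)
    (fun A β h => count_sym β ▸ h1 _ h)
    ((g.rules.finite_toSet.image fun r => r.output.map symE).subset (by
      rintro β ⟨A, h⟩
      exact ⟨_, h, by simp⟩)) g.initial
  exact ⟨C, inferInstance, K, c0, h2, h3.trans (Set.ext fun w =>
    (language_eq g P (fun _ _ => Iff.rfl) w).symm)⟩

end

/-- The alphabet of the witness languages. -/
abbrev Alph (m : ℕ) : Type := (Fin (m + 1) × Bool) ⊕ Fin 3

/-- The productions of the witness grammars. -/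
inductive PL (m : ℕ) : Option (Option (Fin (m + 1))) →
    List (Option (Option (Fin (m + 1))) ⊕ Alph m) → Prop
  | s1 (i : Fin (m + 1)) : PL m none [.inr (.inl (i, false)), .inl none, .inr (.inr 2)]
  | s2 (k : Fin (m + 1)) : PL m none [.inl (some (some k)), .inr (.inl (k, true))]
  | u1 (k i : Fin (m + 1)) : i ≠ k →
      PL m (some (some k)) [.inr (.inl (i, false)), .inl (some (some k))]
  | u2 (k : Fin (m + 1)) : PL m (some (some k)) [.inl (some none)]
  | f1 : PL m (some none) [.inr (.inr 0), .inl (some none), .inr (.inr 1)]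
  | f2 : PL m (some none) []

theorem linear_PL (m : ℕ) : IsLinear {w | Der (PL m) [Sum.inl none] w} := by
  have h1 : {r : ContextFreeRule (Alph m) (Option (Option (Fin (m + 1)))) |
      PL m r.input (r.output.map symE)}.Finite := by
    refine ((Set.finite_univ.prod (List.finite_length_le _ 3)).image
      fun p => (⟨p.1, p.2⟩ : ContextFreeRule (Alph m) (Option (Option (Fin (m + 1)))))).subset ?_
    rintro ⟨A, β⟩ h
    refine ⟨(A, β), ⟨trivial, ?_⟩, rfl⟩
    have h2 : ∀ A γ, PL m A γ → γ.length ≤ 3 := by rintro _ _ (_ | _ | _ | _ | _ | _) <;> simp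
    simpa using h2 _ _ h
  refine ⟨⟨_, none, h1.toFinset⟩, fun r hr => ?_, Set.ext fun w => ?_⟩
  · have h2 : ∀ A γ, PL m A γ → γ.countP Sum.isLeft ≤ 1 := by
      rintro _ _ (_ | _ | _ | _ | _ | _) <;> simp [List.countP_cons]
    have h3 := h2 _ _ (h1.mem_toFinset.1 hr)
    rw [← count_sym] at h3
    simpa using h3
  · exact language_eq ⟨_, none, h1.toFinset⟩ (PL m) (fun A β => by simp) w

theorem mem_PL {m : ℕ} (k : Fin (m + 1)) (v u : List (Alph m)) (n : ℕ)
    (hv : ∀ x ∈ v, ∃ i, x = .inl (i, false)) (hu : ∀ x ∈ u, ∃ i ≠ k, x = .inl (i, false)) :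
    Der (PL m) [Sum.inl none] (v ++ (u ++ (pw [.inr 0] n ++ pw [.inr 1] n) ++ [.inl (k, true)]) ++
      pw [.inr 2] v.length) := by
  induction v with
  | cons x v ih =>
    obtain ⟨i, rfl⟩ := hv x (by simp)
    have := Der.term (P := PL m) (.inl (i, false))
      ((ih fun x hx => hv x (List.mem_cons_of_mem _ hx)).append (der_terms [.inr 2]))
    exact der_single.2 ⟨_, PL.s1 i, by simpa [pw_succ'] using this⟩
  | nil =>
    have h1 : Der (PL m) [Sum.inl (some none)] (pw [.inr 0] n ++ pw [.inr 1] n) := by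
      induction n with
      | zero => exact der_single.2 ⟨_, PL.f2, Der.nil⟩
      | succ n ih =>
        have := Der.term (P := PL m) (.inr 0) (ih.append (der_terms [.inr 1]))
        refine der_single.2 ⟨_, PL.f1, ?_⟩
        rw [pw_succ, pw_succ']
        simpa using this
    have h2 : Der (PL m) [Sum.inl (some (some k))] (u ++ (pw [.inr 0] n ++ pw [.inr 1] n)) := by
      induction u with
      | nil => exact der_single.2 ⟨_, PL.u2 k, h1⟩
      | cons x u ih =>
        obtain ⟨i, hi, rfl⟩ := hu x (by simp)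
        exact der_single.2 ⟨_, PL.u1 k i hi,
          Der.term _ (ih fun x hx => hu x (List.mem_cons_of_mem _ hx))⟩
    exact der_single.2 ⟨_, PL.s2 k, by simpa using h2.append (der_terms [.inl (k, true)])⟩

/-- Number of occurrences of one of the three special letters. -/
def cnt {m : ℕ} (y : Fin 3) (w : List (Alph m)) : ℕ := w.countP fun x => decide (x = .inr y)

@[simp] theorem cnt_nil {m : ℕ} (y : Fin 3) : cnt y ([] : List (Alph m)) = 0 := rfl

@[simp] theorem cnt_append {m : ℕ} (y : Fin 3) (u v : List (Alph m)) :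
    cnt y (u ++ v) = cnt y u + cnt y v := List.countP_append

@[simp] theorem cnt_inl {m : ℕ} (y : Fin 3) (x : Fin (m + 1) × Bool) (v : List (Alph m)) :
    cnt y (.inl x :: v) = cnt y v := by simp [cnt]

@[simp] theorem cnt_inr {m : ℕ} (y x : Fin 3) (v : List (Alph m)) :
    cnt y (.inr x :: v) = cnt y v + if x = y then 1 else 0 := by simp [cnt, List.countP_cons]

@[simp] theorem cnt_pw {m : ℕ} (y x : Fin 3) (n : ℕ) :
    cnt y (pw ([.inr x] : List (Alph m)) n) = if x = y then n else 0 := by
  induction n with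
  | zero => simp
  | succ n ih => rw [pw_succ]; by_cases h : x = y <;> simp [ih, h]; simpa [h] using ih

theorem cnt_zero {m : ℕ} (y : Fin 3) {w : List (Alph m)} (h : .inr y ∉ w) : cnt y w = 0 :=
  List.countP_eq_zero.2 fun x hx h' => h (by simpa [of_decide_eq_true h'] using hx)

/-- Invariants of the witness grammar. -/
def Inv (m : ℕ) : Option (Option (Fin (m + 1))) → List (Alph m) → Prop
  | none, w => cnt 0 w = cnt 1 w ∧
      ∀ k, .inl (k, true) ∈ w → .inl (k, false) ∉ w.drop (cnt 2 w)
  | some (some k), w => cnt 0 w = cnt 1 w ∧ cnt 2 w = 0 ∧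
      .inl (k, false) ∉ w ∧ ∀ k, .inl (k, true) ∉ w
  | some none, w => cnt 0 w = cnt 1 w ∧ cnt 2 w = 0 ∧
      ∀ x, .inl x ∉ w

theorem inv_PL {m : ℕ} {w : List (Alph m)} (h : Der (PL m) [Sum.inl none] w) : Inv m none w := by
  have := h.sat (Φ := Inv m) (by
    rintro _ _ w (i | k | ⟨k, i, hi⟩ | k | _ | _) h
    · obtain ⟨_, rfl, u, _, rfl, ⟨h1, h2⟩, _, rfl, rfl⟩ := h
      refine ⟨by simpa using h1, fun k hk => ?_⟩
      have := h2 k (by simpa using hk)
      simp only [cnt_inl, cnt_append, cnt_inr, cnt_nil, if_true, zero_add,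
        List.drop_succ_cons, List.drop_append, List.mem_append, not_or]
      exact ⟨this, fun h => by simpa using List.mem_of_mem_drop h⟩
    · obtain ⟨u, _, rfl, ⟨h1, h2, h3, h4⟩, _, rfl, rfl⟩ := h
      refine ⟨by simpa using h1, fun k' hk => ?_⟩
      obtain rfl : k' = k := by simpa [h4] using hk
      simpa [h2] using h3
    · obtain ⟨_, rfl, u, _, rfl, ⟨h1, h2, h3, h4⟩, rfl⟩ := h
      exact ⟨by simpa using h1, by simpa using h2, by simpa [hi.symm] using h3, by simpa using h4⟩
    · obtain ⟨u, _, rfl, ⟨h1, h2, h3⟩, rfl⟩ := h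
      exact ⟨by simpa using h1, by simpa using h2, by simpa using h3 _, fun _ => by simpa using h3 _⟩
    · obtain ⟨_, rfl, u, _, rfl, ⟨h1, h2, h3⟩, _, rfl, rfl⟩ := h
      exact ⟨by simpa using h1, by simpa using h2, by simpa using h3⟩
    · obtain rfl := h
      exact ⟨rfl, rfl, by simp⟩)
  obtain ⟨u, _, rfl, h1, rfl⟩ := this
  simpa using h1

theorem result : ∀ (Y : Type) [Finite Y] (L0 : Language Y), IsLinear L0 →
    ∃ (X : Type) (_ : Finite X) (L : Language X), IsLinear L ∧ ¬ InG L0 X L := by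
  intro Y _ L0 hL0
  obtain ⟨C, _, K, c0, hK, rfl⟩ := hL0.peel
  obtain ⟨m, hm⟩ := pig (Set (C × C))
  refine ⟨Alph m, inferInstance, _, linear_PL m, fun h => ?_⟩
  obtain ⟨τ, hτ⟩ := h.single
  replace hτ : ∀ w, Der (PL m) [Sum.inl none] w ↔
      τ.run τ.start w ∈ τ.acc ∧ τ.output τ.start w ∈ K c0 := fun w => Set.ext_iff.1 hτ w
  obtain ⟨e, he1, he2, he3⟩ := exists_loops τ fun i => .inl (Fin.ofNat (m + 1) i, false)
  set q := τ.run τ.start (e m) with hq
  obtain ⟨i, j, h1, h2, h3⟩ := hm fun i => {p | Conf K p.1 (τ.output q (e i)) [] p.2}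
  have hi : τ.run q (e i) = q := he3 i m (by omega) _
  have hj : τ.run q (e j) = q := he3 j m h2 _
  obtain ⟨R, hR⟩ := peel_main hK c0 (τ.output τ.start (e m)) (τ.output q (e i))
  obtain ⟨p, hp⟩ := exists_idem τ [.inr 1]
  set n := (p + 1) * (R + 1) with hn
  set M : List (Alph m) := pw [.inr 0] n ++ pw [.inr 1] (p + 1) with hM
  set q2 := τ.run q M with hq2
  have h4 : τ.run q2 (pw [.inr 1] (p + 1)) = q2 := by rw [hq2, hM, run_append, hp]
  set D : List (Alph m) := .inl (Fin.ofNat (m + 1) j, true) :: pw [.inr 2] (e m).length with hD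
  have h5 : ∀ (u : List (Alph m)) (r : ℕ), τ.run q u = q →
      (Der (PL m) [Sum.inl none] (e m ++ u ++ M ++ pw (pw [.inr 1] (p + 1)) r ++ D) ↔
        τ.run q2 D ∈ τ.acc ∧ τ.output τ.start (e m) ++ τ.output q u ++ τ.output q M ++
          pw (τ.output q2 (pw [.inr 1] (p + 1))) r ++ τ.output q2 D ∈ K c0) := by
    intro u r hu
    rw [hτ]
    simp only [run_append, output_append, ← hq, hu, ← hq2, loop_pw τ h4 r]
  have h6 : ∀ r, pw (pw ([.inr 1] : List (Alph m)) (p + 1)) r = pw [.inr 1] ((p + 1) * r) := by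
    intro r
    induction r with
    | zero => rfl
    | succ r ih => rw [pw_succ', ih, mul_add, mul_one, ← pw_add]
  have h7 : ∀ l, ∀ x ∈ e l, ∃ i, x = .inl (i, false) := fun l x hx => by
    obtain ⟨i, -, h⟩ := he1 l x hx
    exact ⟨_, h⟩
  have h8 : ∀ l y, cnt y (e l) = 0 := fun l y => cnt_zero y fun h => by
    simpa using h7 _ _ h
  have h9 : ∀ l k y, cnt y (pw (e l) k) = 0 := fun l k y => cnt_zero y fun h => by
    simpa using h7 _ _ (mem_pw h)
  have h10 : ∀ k r, Der (PL m) [Sum.inl none]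
      (e m ++ pw (e i) k ++ M ++ pw (pw [.inr 1] (p + 1)) r ++ D) ↔ r = R := by
    intro k r
    constructor
    · intro h
      have := (inv_PL h).1
      simp [h6, h8, h9, hM, hD, hn, mul_add] at this
      exact Nat.eq_of_mul_eq_mul_left (Nat.succ_pos p) (by simp only [Nat.succ_eq_add_one]; omega)
    · rintro rfl
      have := mem_PL (Fin.ofNat (m + 1) j) (e m) (pw (e i) k) n (h7 m) fun x hx => by
        obtain ⟨l, hl, rfl⟩ := he1 i x (mem_pw hx)
        refine ⟨_, fun h => ?_, rfl⟩
        have := congrArg Fin.val h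
        simp only [Fin.val_ofNat] at this
        rw [Nat.mod_eq_of_lt (by omega), Nat.mod_eq_of_lt (by omega)] at this
        omega
      have h11 : pw ([.inr 1] : List (Alph m)) n = pw [.inr 1] (p + 1) ++ pw [.inr 1] ((p + 1) * r) := by
        rw [← pw_add, hn]; congr 1; ring
      rw [h11] at this
      simpa [h6, hM, hD] using this
  have h11 : τ.run q2 D ∈ τ.acc := ((h5 _ R (loop_pw τ hi 0).1).1 ((h10 0 R).2 rfl)).1
  refine hR (τ.output q (e j)) (τ.output q M) (τ.output q2 (pw [.inr 1] (p + 1))) (τ.output q2 D)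
    (fun c c' h => (Set.ext_iff.1 h3 (c, c')).1 h) (fun k l h => ?_) fun k r => ?_
  · have h12 := (h5 (pw (e i) k ++ e j ++ pw (e i) l) R (by
      simp only [run_append, loop_pw τ hi, hj])).2 ⟨h11, by
        simpa only [run_append, output_append, loop_pw τ hi, hj, List.append_assoc] using h⟩
    refine (inv_PL h12).2 (Fin.ofNat (m + 1) j) (by simp [hD]) ?_
    simp [h6, h8, h9, hM, hD]
    exact Or.inr (Or.inl (he2 j))
  · rw [← h10 k r, h5 _ r (loop_pw τ hi k).1, (loop_pw τ hi k).2]
    exact ⟨fun h => ⟨h11, h⟩, fun h => h.2⟩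

end Pool.Agent.Results.MP_773080_lc.LinNotPrincipal
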